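import Pool.Agent.LUB.Stmts

/-!
# LUB, row DPL: determinants, from Omega to the reals
-/

set_option autoImplicit false

namespace Pool.Agent.LUB.H13

open Pool.Agent.LUB

theorem dpl : DplStmt := by
  intro Ω A _ _ _ _ q z hz ι _ _ κ N hdet ρ
  have hchar : CharZero A := (algebraMap A Ω).charZero
  -- the polynomial over `A`
  have hP : (Matrix.of fun i j => MvPolynomial.C (κ i j) +
      ∑ l, (N i j l : MvPolynomial (Fin q) A) * MvPolynomial.X l : Matrix ι ι
        (MvPolynomial (Fin q) A)).det = 0 := by
    have h1 := (injective_iff_map_eq_zero _).1 hz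
    apply h1
    rw [AlgHom.map_det]
    rw [← hdet]
    congr 1
    ext i j
    simp [AlgHom.mapMatrix_apply, Matrix.map_apply]
  -- integer points
  have hZ : ∀ x : Fin q → ℤ, (Matrix.of fun i j => ∑ l, N i j l * x l : Matrix ι ι ℤ).det = 0 := by
    intro x
    obtain ⟨B, hB⟩ : ∃ B : Matrix ι ι ℤ, B = Matrix.of fun i j => ∑ l, N i j l * x l := ⟨_, rfl⟩
    have h1 := congrArg (MvPolynomial.aeval (R := A) fun l : Fin q =>
      ((x l : Polynomial A) * Polynomial.X)) hP
    rw [AlgHom.map_det, map_zero] at h1
    have h2 : (MvPolynomial.aeval (R := A) fun l : Fin q =>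
        ((x l : Polynomial A) * Polynomial.X)).mapMatrix (Matrix.of fun i j => MvPolynomial.C (κ i j) +
      ∑ l, (N i j l : MvPolynomial (Fin q) A) * MvPolynomial.X l : Matrix ι ι
        (MvPolynomial (Fin q) A)) =
        (Polynomial.X : Polynomial A) • ((B.map (Int.cast : ℤ → A)).map Polynomial.C) +
          (Matrix.of κ).map Polynomial.C := by
      ext1 i j
      rw [hB]
      simp only [AlgHom.mapMatrix_apply, Matrix.map_apply, Matrix.of_apply, map_add, map_sum,
        map_mul, map_intCast, MvPolynomial.aeval_X, Matrix.add_apply, Matrix.smul_apply,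
        smul_eq_mul, Int.cast_sum, Int.cast_mul, Finset.mul_sum]
      rw [add_comm]
      congr 1
      · refine Finset.sum_congr rfl fun l _ => ?_
        ring
      · rw [MvPolynomial.aeval_C]
        rfl
    rw [h2] at h1
    have h3 := Polynomial.coeff_det_X_add_C_card (B.map (Int.cast : ℤ → A)) (Matrix.of κ)
    rw [h1, Polynomial.coeff_zero] at h3
    have h4 : ((B.det : ℤ) : A) = (B.map (Int.cast : ℤ → A)).det := by
      exact Int.cast_det B
    rw [← h3] at h4
    rw [← hB]
    exact_mod_cast h4
  -- the polynomial over the integers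
  have hQ : (Matrix.of fun i j => ∑ l, (N i j l : MvPolynomial (Fin q) ℤ) * MvPolynomial.X l :
      Matrix ι ι (MvPolynomial (Fin q) ℤ)).det = 0 := by
    apply MvPolynomial.funext
    intro x
    rw [map_zero, RingHom.map_det, ← hZ x]
    congr 1
    ext i j
    simp [RingHom.mapMatrix_apply, Matrix.map_apply]
  have h1 := congrArg (MvPolynomial.aeval (R := ℤ) ρ) hQ
  rw [AlgHom.map_det, map_zero] at h1
  rw [← h1]
  congr 1
  ext i j
  simp [AlgHom.mapMatrix_apply, Matrix.map_apply]

end Pool.Agent.LUB.H13
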